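import Mathlib
import Pool.Agent.KS6_27.COa
import Pool.Agent.KS6_27.CUd

set_option autoImplicit false

/-!
# Cohesive sets for partitions: every exponent `n ≥ 2`, and finite unions

No finite union of `n`-cohesive sets, `n ≥ 2`, has an infinite `Π⁰_n` subset, nor an infinite subset
which is a Boolean combination of `Σ⁰_n` sets; the case `n = 2` is included.
-/

namespace Pool.Agent.Results.MP_c357a0_lc.FiniteUnions

open Pool.Agent.Results.MP_c357a0_lc.NoPiNCohesive (IsPi NCohesive AlmostHomogeneous)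
open Pool.Agent.Y563.BC (BoolSigma IsCompPartition bool_of_pi almost_mono)

/-- `H` is `n`-r-cohesive: infinite, and almost homogeneous for every computable partition of
exponent `n`. -/
def NRCohesive (n : ℕ) (H : Set ℕ) : Prop :=
  H.Infinite ∧ ∀ C : Set (Finset ℕ), IsCompPartition n C → AlmostHomogeneous n H C

lemma nr_of_n {n : ℕ} {H : Set ℕ} (h : NCohesive n H) : NRCohesive n H :=
  ⟨h.1, fun C hC => h.2 C ⟨hC.1, ComputablePred.to_re hC.2⟩⟩

/-- Let `n ≥ 2`.
(1) Every infinite Boolean combination of `Σ⁰_n` sets fails to be almost homogeneous for some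
computable partition of exponent `n`.
(2) For every `k` and every infinite Boolean combination `A` of `Σ⁰_n` sets there are `k² + 1`
computable partitions of exponent `n` such that, however `A` is covered by `k` sets, one of these
sets is not almost homogeneous for one of the partitions.
(3) No infinite subset of a union of finitely many `n`-r-cohesive sets is a Boolean combination of
`Σ⁰_n` sets.
(4) The same for finitely many `n`-cohesive sets.
(5) No union of finitely many (at least one) `n`-cohesive sets is `Π⁰_n`.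
(6) No `n`-cohesive set is `Π⁰_n`. -/
theorem result : ∀ n : ℕ, 2 ≤ n →
    (∀ A : Set ℕ, A.Infinite → BoolSigma n A →
      ∃ C, IsCompPartition n C ∧ ¬ AlmostHomogeneous n A C) ∧
    (∀ (k : ℕ) (A : Set ℕ), A.Infinite → BoolSigma n A →
      ∃ C : Fin (k * k + 1) → Set (Finset ℕ), (∀ c, IsCompPartition n (C c)) ∧
        ∀ H : Fin k → Set ℕ, A ⊆ (⋃ i, H i) → ∃ i c, ¬ AlmostHomogeneous n (H i) (C c)) ∧
    (∀ (k : ℕ) (H : Fin k → Set ℕ), (∀ i, NRCohesive n (H i)) →
      ∀ B ⊆ (⋃ i, H i), B.Infinite → ¬ BoolSigma n B) ∧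
    (∀ (k : ℕ) (H : Fin k → Set ℕ), (∀ i, NCohesive n (H i)) →
      ∀ B ⊆ (⋃ i, H i), B.Infinite → ¬ BoolSigma n B) ∧
    (∀ (k : ℕ) (H : Fin (k + 1) → Set ℕ), (∀ i, NCohesive n (H i)) → ¬ IsPi n (⋃ i, H i)) ∧
    ¬ ∃ A : Set ℕ, NCohesive n A ∧ IsPi n A := by
  intro n hn
  have h2 : ∀ (k : ℕ) (A : Set ℕ), A.Infinite → BoolSigma n A →
      ∃ C : Fin (k * k + 1) → Set (Finset ℕ), (∀ c, IsCompPartition n (C c)) ∧
        ∀ H : Fin k → Set ℕ, A ⊆ (⋃ i, H i) → ∃ i c, ¬ AlmostHomogeneous n (H i) (C c) := by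
    intro k A hinf hA
    obtain ⟨C, hC, hcov⟩ := Pool.Agent.KS6_27.CU.bool_cover n hn k A hinf hA
    refine ⟨fun c => C c, fun c => hC c, fun H hH => ?_⟩
    obtain ⟨i, c, hc, hnot⟩ := hcov H hH
    exact ⟨i, ⟨c, hc⟩, hnot⟩
  have h3 : ∀ (k : ℕ) (H : Fin k → Set ℕ), (∀ i, NRCohesive n (H i)) →
      ∀ B ⊆ (⋃ i, H i), B.Infinite → ¬ BoolSigma n B := by
    intro k H hH B hB hinf hbool
    obtain ⟨C, hC, hcov⟩ := h2 k B hinf hbool
    obtain ⟨i, c, hnot⟩ := hcov H hB
    exact hnot ((hH i).2 _ (hC c))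
  have h4 : ∀ (k : ℕ) (H : Fin k → Set ℕ), (∀ i, NCohesive n (H i)) →
      ∀ B ⊆ (⋃ i, H i), B.Infinite → ¬ BoolSigma n B :=
    fun k H hH => h3 k H (fun i => nr_of_n (hH i))
  have h5 : ∀ (k : ℕ) (H : Fin (k + 1) → Set ℕ), (∀ i, NCohesive n (H i)) →
      ¬ IsPi n (⋃ i, H i) := by
    intro k H hH hpi
    exact h4 (k + 1) H hH _ subset_rfl
      ((hH 0).1.mono (Set.subset_iUnion H 0)) (bool_of_pi hpi)
  refine ⟨Pool.Agent.KS6_27.CO.bool_main n hn, h2, h3, h4, h5, ?_⟩
  rintro ⟨A, hA, hPi⟩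
  refine h5 0 (fun _ => A) (fun _ => hA) ?_
  rw [Set.iUnion_const]
  exact hPi

end Pool.Agent.Results.MP_c357a0_lc.FiniteUnions
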